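import Pool.Agent.TTM.Twist

set_option autoImplicit false

/-!
# MP_c076ed_nt: uniform boundedness for two-term maps `a z ^ k + c z ^ l`, `k`, `l` integers

Let `K` be a number field and `a` a nonzero element of `K`. The parameter `c` runs through `K`.

* `l = 0` (the maps `a z ^ k + c`): `5 ≤ k` or `k ≤ -4`; or `K = ℚ`, `a = 1` and `3 ≤ |k|`. Then the
  number of preperiodic points over `K` is bounded independently of `c`.
* `l ≠ 0`, `k ≠ l`, one of the exponents positive, `4 ≤ gcd(k, l)`, `6 ≤ k` or `k ≤ -4`, and
  `gcd(l, k - 1) = 1` if `0 < l < k`. Then for `c ≠ 0` the number of all preperiodic points over `K`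
  is bounded independently of `c`, unless `k - l` divides a power of `k`. In this exceptional case
  the same is proved for the points which are periodic, or end at `0` or at infinity, or end in a
  cycle of length at least two.

The projective line is `Option K`, with `none` as the point at infinity. Nothing is assumed.

Method: `f (ω z) = f z` for all roots of unity `ω` of order dividing `gcd(k, l)`. For pairs of
preperiodic points `x`, `y` with separated orbits the valuation of `x - ω y` is the maximum of the
valuations of `x` and `y` at all good places, and differs from it by a multiple of `|k| - 1` or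
`|k| + 1` at the places where `c` is not a unit. So the quotients of the elements `x - ω y` are
powers up to finitely many constants, which gives points on finitely many curves that do not depend
on `c`; their number is bounded by the Mordell-Weil theorem, Mumford's gap principle and height
bounds, all proved in `Pool.Agent.HMW`. Preimages of a nonzero finite fixed point are preimages of a
longer cycle of the map `η f`, where `η` is a root of unity of order `|k - l|`, because
`f (η z) = η ^ k * f z`.
-/

namespace Pool.Agent.Results.MP_c076ed_nt.IntegerPowerMaps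

open Pool.Agent.TTM

theorem result (K : Type) [Field K] [NumberField K] (a : K) (k l : ℤ) (ha : a ≠ 0)
    (h : l = 0 ∧ (5 ≤ k ∨ k ≤ -4 ∨ 3 ≤ |k| ∧ a = 1 ∧ Module.finrank ℚ K = 1) ∨
      l ≠ 0 ∧ k ≠ l ∧ (0 < k ∨ 0 < l) ∧ 4 ≤ Int.gcd k l ∧ (6 ≤ k ∨ k ≤ -4) ∧
        (0 < l → l < k → Int.gcd l (k - 1) = 1)) :
    ∃ B : ℕ, ∀ c : K, (l = 0 ∨ c ≠ 0) →
      {P : Option K | ∃ i m : ℕ, 0 < m ∧
        (twoMap a c k l)^[m] ((twoMap a c k l)^[i] P) = (twoMap a c k l)^[i] P ∧
        (l = 0 ∨ (∀ j : ℕ, ¬ (k - l) ∣ k ^ j) ∨ i = 0 ∨
          twoMap a c k l ((twoMap a c k l)^[i] P) ≠ (twoMap a c k l)^[i] P ∨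
          (twoMap a c k l)^[i] P = none ∨ (twoMap a c k l)^[i] P = some 0)}.encard ≤ B :=
  all_two' K a k l ha h

end Pool.Agent.Results.MP_c076ed_nt.IntegerPowerMaps
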