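import Pool.Agent.PDR.MainS
import Pool.Agent.PDR.InstP
import Pool.Agent.HMW.AllK

set_option autoImplicit false

/-!
# MP_c076ed_nt: uniform boundedness for tame rational maps with a symmetry

`K` is a number field, `5 ≤ M`, `N ≠ 0`, and `[F : G]` runs through all rational maps of the
projective line of degree `d ≥ 2` over `K` which are tame with exponent `M` (see
`Pool.Agent.PDR.Tame`) at all primes not containing `N` (if no point over `K` has exact period at
least two then nothing is required) and are invariant under a linear map `A` over `K`, such that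
`A` and `A ^ 2` are not scalar. Assume that `A ^ 3` is not scalar, or that the map has a totally
ramified fixed point over `K`, or that `M` is even. Then at most `d ^ B` points over `K` end in a
cycle of length at least two; in the first two cases at most `B` of them are periodic. The constant
`B` depends only on `K`, `M`, `N`, neither on the degree nor on `A`.
-/

open NumberField IsDedekindDomain
open scoped LinearAlgebra.Projectivization

namespace Pool.Agent.Results.MP_c076ed_nt.SymmetricRationalMaps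

theorem result (K : Type) [Field K] [NumberField K] (M N : ℕ) (hM : 5 ≤ M) (hN : N ≠ 0) :
    ∃ B : ℕ, ∀ (d : ℕ) (F G : MvPolynomial (Fin 2) K), 2 ≤ d →
      F.IsHomogeneous d → G.IsHomogeneous d →
      (∀ x : Fin 2 → AlgebraicClosure K, x ≠ 0 →
        ¬ (MvPolynomial.aeval x F = 0 ∧ MvPolynomial.aeval x G = 0)) →
      ((∃ (v : Fin 2 → K) (n : ℕ), 2 ≤ n ∧ Pool.Agent.PDR.HasPeriod F G n v) →
        ∀ w : HeightOneSpectrum (𝓞 K), (N : 𝓞 K) ∉ w.asIdeal →
          Pool.Agent.PDR.Tame M (w.valuation K) d F G) →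
      ∀ (A : Matrix (Fin 2) (Fin 2) K) (χ : K), A.det ≠ 0 →
      (∀ v : Fin 2 → K, Pool.Agent.PDR.val F G (A.mulVec v) = χ • Pool.Agent.PDR.val F G v) →
      (∀ i, 1 ≤ i → i ≤ 2 → ∃ v : Fin 2 → K, ∀ c : K, (A ^ i).mulVec v ≠ c • v) →
      (((∃ v : Fin 2 → K, ∀ c : K, (A ^ 3).mulVec v ≠ c • v) ∨
          Pool.Agent.PDR.TotRam F G d) →
        ∀ S : Finset (ℙ K (Fin 2 → K)),
        (∀ P ∈ S, ∃ (v : Fin 2 → K) (hv : v ≠ 0), Projectivization.mk K v hv = P ∧
          ∃ n : ℕ, 2 ≤ n ∧ Pool.Agent.PDR.HasPeriod F G n v) → S.card ≤ B) ∧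
      (((∃ v : Fin 2 → K, ∀ c : K, (A ^ 3).mulVec v ≠ c • v) ∨
          Pool.Agent.PDR.TotRam F G d ∨ 2 ∣ M) →
        ∀ S : Finset (ℙ K (Fin 2 → K)),
        (∀ P ∈ S, ∃ (v : Fin 2 → K) (hv : v ≠ 0), Projectivization.mk K v hv = P ∧
          ∃ k n : ℕ, 2 ≤ n ∧ Pool.Agent.PDR.HasPeriod F G n
            ((Pool.Agent.PDR.val F G)^[k] v)) → S.card ≤ d ^ B) :=
  Pool.Agent.PDR.thmS Pool.Agent.HMW.all_KGU K M N hM hN

end Pool.Agent.Results.MP_c076ed_nt.SymmetricRationalMaps
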