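import Pool.Agent.PDR.Main
import Pool.Agent.PDR.InstP
import Pool.Agent.PDR.Neg4
import Pool.Agent.HMW.AllK

set_option autoImplicit false

/-!
# MP_c076ed_nt: uniform boundedness for rational maps which are tame outside `N`

`K` is a number field, `5 ≤ M`, `N ≠ 0`, and `[F : G]` runs through all rational maps of the
projective line of degree `d ≥ 2` over `K` which are tame with exponent `M` (see
`Pool.Agent.PDR.Tame`) at all primes not containing `N`; if no point over `K` has exact period at
least two then nothing is required. The constant `B` depends only on `K`, `M`, `N`, not on the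
degree. Divisors of lengths of cycles are bounded if they are prime to six, or odd if the map has a
totally ramified fixed point over `K`, or arbitrary if `M` is even; and the number of points which
are periodic or end in a cycle of length at least four (at least three with a totally ramified
fixed point) is at most a power of the degree, where for odd `M` one only counts the points whose
cycle has length at most `r`.

Examples of tame maps are proved in `Pool.Agent.PDR.tame_twist`, `Pool.Agent.PDR.tame_frac`,
`Pool.Agent.PDR.tame_const` and `Pool.Agent.PDR.nm_tame`.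
-/

open NumberField IsDedekindDomain
open scoped LinearAlgebra.Projectivization

namespace Pool.Agent.Results.MP_c076ed_nt.TameRationalMaps

theorem result (K : Type) [Field K] [NumberField K] (M N : ℕ) (hM : 5 ≤ M) (hN : N ≠ 0) :
    ∃ B : ℕ, ∀ (d : ℕ) (F G : MvPolynomial (Fin 2) K), 2 ≤ d →
      F.IsHomogeneous d → G.IsHomogeneous d →
      (∀ x : Fin 2 → AlgebraicClosure K, x ≠ 0 →
        ¬ (MvPolynomial.aeval x F = 0 ∧ MvPolynomial.aeval x G = 0)) →
      ((∃ (v : Fin 2 → K) (n : ℕ), 2 ≤ n ∧ Pool.Agent.PDR.HasPeriod F G n v) →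
        ∀ w : HeightOneSpectrum (𝓞 K), (N : 𝓞 K) ∉ w.asIdeal →
          Pool.Agent.PDR.Tame M (w.valuation K) d F G) →
      (∀ (v : Fin 2 → K) (n q : ℕ), Pool.Agent.PDR.HasPeriod F G n v → q ∣ n →
        (q.Coprime 6 ∨ (Odd q ∧ Pool.Agent.PDR.TotRam F G d) ∨ 2 ∣ M) → q ≤ B) ∧
      ∀ r : ℕ, 1 ≤ r → ∀ S : Finset (ℙ K (Fin 2 → K)),
        (∀ P ∈ S, ∃ (v : Fin 2 → K) (hv : v ≠ 0), Projectivization.mk K v hv = P ∧
          ∃ k n : ℕ, Pool.Agent.PDR.HasPeriod F G n ((Pool.Agent.PDR.val F G)^[k] v) ∧
            (k = 0 ∨ 4 ≤ n ∨ (n = 3 ∧ Pool.Agent.PDR.TotRam F G d)) ∧ (n ≤ r ∨ 2 ∣ M)) →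
        S.card ≤ d ^ (B * r) :=
  Pool.Agent.PDR.thmR Pool.Agent.HMW.all_KGU K M N hM hN

end Pool.Agent.Results.MP_c076ed_nt.TameRationalMaps
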