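import Pool.Agent.UMR.COMP
import Pool.Agent.UMR.ITER
import Pool.Agent.UMR.CL
import Pool.Agent.UMR.FACT
import Pool.Agent.UMR.GAM
import Pool.Agent.UMR.NC
import Pool.Agent.UMR.NCG
import Pool.Agent.UMR.VAN
import Pool.Agent.UMR.DSTEP
import Pool.Agent.UMR.GEN
import Pool.Agent.UMR.GAUSS
import Pool.Agent.UMR.BD
import Pool.Agent.UMR.ESC
import Pool.Agent.UMR.GR
import Pool.Agent.UMR.DETV
import Pool.Agent.UMR.ENERGY
import Pool.Agent.UMR.CJX
import Pool.Agent.UMR.CONJ
import Pool.Agent.UMR.SCALE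
import Pool.Agent.UMR.ORTH
import Pool.Agent.UMR.LK
import Pool.Agent.UMR.GRHO
import Pool.Agent.UMR.TWO
import Pool.Agent.UMR.POS
import Pool.Agent.UMR.ETA
import Pool.Agent.UMR.CLASS
import Pool.Agent.UMR.GOODB
import Pool.Agent.UMR.DICH
import Pool.Agent.UMR.EXT
import Pool.Agent.UMR.PLZ
import Pool.Agent.UMR.PLS
import Pool.Agent.UMR.ACL
import Pool.Agent.UMR.TB
import Pool.Agent.UMR.SEQ
import Pool.Agent.UMR.MULTI
import Pool.Agent.UMR.HTREL
import Pool.Agent.UMR.HTGROW
import Pool.Agent.UMR.HBDD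
import Pool.Agent.UMR.SUMG
import Pool.Agent.UMR.ISOA
import Pool.Agent.UMR.ISO
import Pool.Agent.UMR.RESNZ
import Pool.Agent.UMR.GINF
import Pool.Agent.UMR.GEOM
import Pool.Agent.UMR.BZ
import Pool.Agent.UMR.HBD
import Pool.Agent.UMR.LONG
import Pool.Agent.UMR.TAY
import Pool.Agent.UMR.MINOR
import Pool.Agent.UMR.REL
import Pool.Agent.UMR.PRI
import Pool.Agent.UMR.CONJQ
import Pool.Agent.UMR.PARAM
import Pool.Agent.UMR.FINAL
import Pool.Agent.UMR.LOWC

set_option autoImplicit false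
set_option maxHeartbeats 4000000

/-!
# MP_c076ed_nt: uniform boundedness outside few conjugacy classes

Let `d ≥ 2` and `ε > 0`. There is a bound `B` such that all but `O(X ^ ε)` of the conjugacy classes
(over the rationals) of endomorphisms of degree `d` and height at most `X` of the projective line
over the rationals consist of maps with at most `B` rational preperiodic points. There are at least
`c X ^ (2 d - 2)` classes in all.
-/

namespace Pool.Agent.Results.MP_c076ed_nt.UniformOutsideEps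

open scoped BigOperators

/-- Integral binary forms of degree `d`, given by the coefficients `F i` of
`X ^ i * Y ^ (d - i)`. -/
abbrev Form (d : ℕ) : Type := Fin (d + 1) → ℤ

/-- The value of the form at `(x, y)`. -/
def value {R : Type} [CommRing R] {d : ℕ} (F : Form d) (x y : R) : R :=
  ∑ i : Fin (d + 1), (F i : R) * x ^ (i : ℕ) * y ^ (d - (i : ℕ))

/-- The pairs of integral binary forms of degree `d` with coefficients at most `X` in absolute
value and without common zero: they define the endomorphisms `[F : G]` of degree `d` of the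
projective line over the rationals, of height at most `X`. -/
def Maps (d X : ℕ) : Set (Form d × Form d) :=
  {f | (∀ i, |f.1 i| ≤ (X : ℤ)) ∧ (∀ i, |f.2 i| ≤ (X : ℤ)) ∧
    ∀ x y : ℂ, value f.1 x y = 0 → value f.2 x y = 0 → x = 0 ∧ y = 0}

/-- The map `f = [F : G]` on homogeneous coordinates. -/
def step {d : ℕ} (f : Form d × Form d) (v : ℚ × ℚ) : ℚ × ℚ :=
  (value f.1 v.1 v.2, value f.2 v.1 v.2)

/-- Two nonzero vectors are homogeneous coordinates of the same point of the projective line. -/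
def SamePoint (v w : ℚ × ℚ) : Prop := ∃ c : ℚ, c ≠ 0 ∧ v = c • w

/-- The rational point with homogeneous coordinates `v` is preperiodic for `f`: its `n`-th and
`m`-th iterated images are the same point, for some `m < n`. -/
def IsPreperiodic {d : ℕ} (f : Form d × Form d) (v : ℚ × ℚ) : Prop :=
  v ≠ 0 ∧ ∃ m n : ℕ, m < n ∧ SamePoint ((step f)^[n] v) ((step f)^[m] v)

/-- The map `f` has more than `B` rational preperiodic points. -/
def HasMorePreperiodicPointsThan {d : ℕ} (f : Form d × Form d) (B : ℕ) : Prop :=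
  ∃ T : Finset (ℚ × ℚ), B < T.card ∧ (∀ v ∈ T, IsPreperiodic f v) ∧
    ∀ v ∈ T, ∀ w ∈ T, v ≠ w → ¬ SamePoint v w

/-- The maps `f` and `g` are conjugate by an automorphism of the projective line over the
rationals: there is an invertible matrix `M` with `M ∘ g = f ∘ M`, as maps of the projective
line. -/
def Conjugate {d : ℕ} (f g : Form d × Form d) : Prop :=
  ∃ M : Matrix (Fin 2) (Fin 2) ℚ, M.det ≠ 0 ∧ ∃ c : ℚ, c ≠ 0 ∧ ∀ v : ℚ × ℚ,
    (M 0 0 * (step g v).1 + M 0 1 * (step g v).2, M 1 0 * (step g v).1 + M 1 1 * (step g v).2) =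
      c • step f (M 0 0 * v.1 + M 0 1 * v.2, M 1 0 * v.1 + M 1 1 * v.2)

theorem same_iff {v w : ℚ × ℚ} (hv : v ≠ 0) (hw : w ≠ 0) :
    SamePoint v w ↔ UMR.wd v w = 0 := by
  unfold SamePoint UMR.wd
  constructor
  · rintro ⟨c, -, h⟩
    rw [h]; simp only [Prod.smul_fst, Prod.smul_snd, smul_eq_mul]; ring
  · intro h
    by_cases h1 : w.1 = 0
    · have h2 : w.2 ≠ 0 := fun h2 => hw (Prod.ext h1 h2)
      have hv1 : v.1 = 0 := by
        rw [h1] at h
        rcases mul_eq_zero.1 (show v.1 * w.2 = 0 by linarith) with h | h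
        · exact h
        · exact absurd h h2
      have hv2 : v.2 ≠ 0 := fun hv2 => hv (Prod.ext hv1 hv2)
      refine ⟨v.2 / w.2, div_ne_zero hv2 h2, Prod.ext ?_ ?_⟩
      · simp [h1, hv1]
      · simp only [Prod.smul_snd, smul_eq_mul]; field_simp
    · have hv1 : v.1 ≠ 0 := by
        intro hv1
        rw [hv1] at h
        rcases mul_eq_zero.1 (show v.2 * w.1 = 0 by linarith) with h | h
        · exact hv (Prod.ext hv1 h)
        · exact h1 h
      refine ⟨v.1 / w.1, div_ne_zero hv1 h1, Prod.ext ?_ ?_⟩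
      · simp only [Prod.smul_fst, smul_eq_mul]; field_simp
      · simp only [Prod.smul_snd, smul_eq_mul]
        field_simp
        linarith

theorem value_eq {R : Type} [CommRing R] {d : ℕ} (F : Form d) (x : R × R) :
    value F x.1 x.2 = UMR.fv (fun i => (Int.castRingHom R) (F i)) x := by
  unfold value UMR.fv
  simp

theorem step_eq {d : ℕ} (f : Form d × Form d) : step f = UMR.st (UMR.qf f) := by
  funext v
  unfold step UMR.st UMR.qf UMR.mp
  rw [value_eq, value_eq]

theorem maps_eq (d X : ℕ) : Maps d X = UMR.Maps d X := by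
  ext f
  unfold Maps UMR.Maps UMR.NZ UMR.mp UMR.st
  simp only [Set.mem_ofPred_eq]
  refine and_congr Iff.rfl (and_congr Iff.rfl ?_)
  constructor
  · intro h x hx
    have h1 := congrArg Prod.fst hx
    have h2 := congrArg Prod.snd hx
    simp only [Prod.fst_zero, Prod.snd_zero] at h1 h2
    rw [← value_eq] at h1 h2
    obtain ⟨h3, h4⟩ := h x.1 x.2 h1 h2
    exact Prod.ext h3 h4
  · intro h x y hx hy
    have h3 := h (x, y) (by
      rw [← value_eq, ← value_eq]
      exact Prod.ext hx hy)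
    exact ⟨congrArg Prod.fst h3, congrArg Prod.snd h3⟩

theorem conj_iff {d : ℕ} (f g : Form d × Form d) : Conjugate f g ↔ UMR.Conj f g := by
  unfold Conjugate UMR.Conj
  rw [step_eq, step_eq]
  have e1 : ∀ p q a b : ℚ × ℚ, UMR.lin p q a =
      (p.1 * a.1 + q.1 * a.2, p.2 * a.1 + q.2 * a.2) := by
    intro p q a b
    unfold UMR.lin
    ext <;> simp only <;> ring
  constructor
  · rintro ⟨M, hM, c, hc, h⟩
    refine ⟨(M 0 0, M 1 0), (M 0 1, M 1 1), c, ?_, hc, fun x => ?_⟩
    · rw [Matrix.det_fin_two] at hM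
      unfold UMR.wd
      intro h0
      apply hM
      linear_combination h0
    · rw [e1 _ _ _ 0, e1 _ _ _ 0]
      exact h x
  · rintro ⟨e₁, e₂, c, hw, hc, h⟩
    refine ⟨!![e₁.1, e₂.1; e₁.2, e₂.2], ?_, c, hc, fun v => ?_⟩
    · rw [Matrix.det_fin_two_of]
      unfold UMR.wd at hw
      intro h0
      apply hw
      linear_combination h0
    · have h4 := h v
      rw [e1 _ _ _ 0, e1 _ _ _ 0] at h4
      simp only [Matrix.of_apply, Matrix.cons_val', Matrix.cons_val_zero, Matrix.cons_val_one,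
        Matrix.cons_val_fin_one]
      exact h4

theorem final : UMR.T_FINAL := by
  have comp := UMR.p_COMP
  have iter := UMR.p_ITER comp
  have cl := UMR.p_CL comp
  have fact := UMR.p_FACT
  have gam := UMR.p_GAM fact
  have nc := UMR.p_NC
  have ncg := UMR.p_NCG nc
  have van := UMR.p_VAN
  have dstep := UMR.p_DSTEP ncg van comp
  have gen := UMR.p_GEN
  have gauss := UMR.p_GAUSS fact gen
  have bd := UMR.p_BD gen
  have esc := UMR.p_ESC bd
  have gr := UMR.p_GR bd
  have detv := UMR.p_DETV van dstep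
  have energy := UMR.p_ENERGY detv
  have cjx := UMR.p_CJX cl
  have conj := UMR.p_CONJ
  have scale := UMR.p_SCALE
  have orth := UMR.p_ORTH cl gauss
  have lk := UMR.p_LK gen
  have grho := UMR.p_GRHO iter cl gauss gen
  have two := UMR.p_TWO energy
  have pos := UMR.p_POS scale orth conj lk grho two bd
  have eta := UMR.p_ETA iter gauss
  have cls := UMR.p_CLASS eta cjx conj pos
  have goodb := UMR.p_GOODB bd
  have dich := UMR.p_DICH cjx conj cls goodb
  have pls := UMR.p_PLS UMR.p_EXT UMR.p_PLZ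
  have hbdd := UMR.p_HBDD UMR.p_SEQ (UMR.p_HTREL UMR.p_MULTI) (UMR.p_HTGROW bd)
  have sumg := UMR.p_SUMG hbdd esc gr
  have isoa := UMR.p_ISOA sumg dich energy
  have iso := UMR.p_ISO isoa gam pls UMR.p_ACL UMR.p_TB
  have ginf := UMR.p_GINF iso UMR.p_RESNZ
  have geom := UMR.p_GEOM ginf UMR.p_RESNZ
  exact UMR.p_FINAL geom (UMR.p_REL (UMR.p_MINOR UMR.p_TAY)) UMR.p_PRI UMR.p_BZ
    UMR.p_HBD UMR.p_LONG UMR.p_CONJQ UMR.p_PARAM

/-- Let `d ≥ 2` and `ε > 0`. There are `B`, `C` and `c > 0` such that for every `X ≥ 1` the maps of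
degree `d` and height at most `X` lie in at least `c X ^ (2 d - 2)` conjugacy classes (there is a
set `S` of that many pairwise non-conjugate maps), and those of them with more than `B` rational
preperiodic points lie in at most `C X ^ ε` conjugacy classes (those of the maps in a set `R`). -/
theorem result (d : ℕ) (ε : ℝ) (hd : 2 ≤ d) (hε : 0 < ε) :
    ∃ (B : ℕ) (C c : ℝ), 0 < c ∧ ∀ X : ℕ, 1 ≤ X →
      (∃ S : Finset (Form d × Form d), (∀ f ∈ S, f ∈ Maps d X) ∧
        (∀ f ∈ S, ∀ g ∈ S, f ≠ g → ¬ Conjugate f g) ∧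
        c * (X : ℝ) ^ (2 * d - 2) ≤ (S.card : ℝ)) ∧
      ∃ R : Finset (Form d × Form d), (R.card : ℝ) ≤ C * (X : ℝ) ^ ε ∧
        ∀ f ∈ Maps d X, HasMorePreperiodicPointsThan f B → ∃ g ∈ R, Conjugate f g := by
  obtain ⟨B, C, h⟩ := final d ε hd hε
  obtain ⟨c, hc, hlow⟩ := UMR.p_LOWC d hd
  refine ⟨B, C, c, hc, fun X hX => ⟨?_, ?_⟩⟩
  · obtain ⟨S, h1, h2, h3⟩ := hlow X hX
    refine ⟨S, fun f hf => ?_, fun f hf g hg hfg hcon => ?_, h2⟩
    · rw [maps_eq]; exact h1 f hf
    · exact h3 f hf g hg hfg ((conj_iff f g).1 hcon)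
  · obtain ⟨R, hR, h⟩ := h X hX
    refine ⟨R, hR, fun f hf hT => ?_⟩
    rw [maps_eq] at hf
    obtain ⟨T, hT1, hT2, hT3⟩ := hT
    have hT2' : ∀ v ∈ T, UMR.Prep f v := fun v hv => by
      obtain ⟨hv0, m, n, hmn, c, hc, hcc⟩ := hT2 v hv
      refine ⟨hv0, m, n, hmn, c, hc, ?_⟩
      rw [step_eq] at hcc
      exact hcc
    have hT3' : ∀ v ∈ T, ∀ w ∈ T, v ≠ w → UMR.wd v w ≠ 0 := fun v hv w hw hvw h0 =>
      hT3 v hv w hw hvw ((same_iff (hT2 v hv).1 (hT2 w hw).1).2 h0)
    obtain ⟨g, hg, hcon⟩ := h f hf ⟨T, hT1, hT2', hT3'⟩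
    exact ⟨g, hg, (conj_iff f g).2 hcon⟩

end Pool.Agent.Results.MP_c076ed_nt.UniformOutsideEps
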